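import Pool.Agent.H849.K3.Main

/-!
# Semisimplicity of the cohomology of surfaces of geometric genus one over the rational numbers

Let `X` be a smooth projective variety over `ℚ` and `j ≥ 1` such that `h^(j+1,j-1)(X) ≤ 1` and
`h^(j+a,j-a)(X) = 0` for `a > 1`; for instance a surface with `p_g ≤ 1` and `j = 1`.  The
representation `V = H^(2j)(X, ℚ_ℓ)` of the Galois group of `ℚ` has the properties which are listed
in the structure `K3Type` (theorems of Deligne and Mazur, and the hard Lefschetz theorem).  From
these properties alone we prove that the only possible obstruction to the semisimplicity of `V` is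
the radical of the intersection form on the space of the Tate classes of `X` over number fields.
In particular the Tate conjecture for the cycles of codimension `j` on `X` itself implies that `V`
is semisimple.  We also bound the radical by the number of Frobenius eigenvalues of Tate type
modulo one prime number, which gives a criterion that can be checked by counting points modulo one
prime number.
-/

set_option autoImplicit false

namespace Pool.Agent.Results.MP_b4801b_ag.KThreeTypeCriterion

open Pool.Agent.H849.K3 Module

theorem result {ℓ j : ℕ} [Fact ℓ.Prime] (hj : 0 < j) {V : Type} [AddCommGroup V]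
    [Module ℚ_[ℓ] V] [FiniteDimensional ℚ_[ℓ] V] (A : K3Type ℓ j V) :
    (A.IsSemisimple ↔ ∀ x ∈ A.tate, (∀ y ∈ A.tate, A.B x y = 0) → x = 0) ∧
    (∀ p : ℕ, p.Prime → p ∉ A.S →
      finrank ℚ_[ℓ] A.tate +
        finrank ℚ_[ℓ] (A.tate ⊓ A.B.orthogonal A.tate : Submodule ℚ_[ℓ] V) ≤ A.frobTate p) ∧
    ∀ p : ℕ, p.Prime → p ∉ A.S → ∀ Z : Submodule ℚ_[ℓ] V, Z ≤ A.tate →
      (∀ x ∈ Z, (∀ y ∈ Z, A.B x y = 0) → x = 0) → A.frobTate p ≤ finrank ℚ_[ℓ] Z + 1 →
      A.IsSemisimple :=
  ⟨⟨A.nondegenerate_of_semisimple, A.semisimple_of_nondegenerate hj⟩,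
    fun _ hp hpS => A.finrank_add_le hp hpS,
    fun _ hp hpS _ hZ hnd h => A.semisimple_of_frobTate hj hp hpS hZ hnd h⟩

end Pool.Agent.Results.MP_b4801b_ag.KThreeTypeCriterion
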