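import Pool.Agent.H853.EL.Near
import Pool.Agent.H853.EL.Core

/-!
# One element of maximal rank, at one prime, gives semisimplicity at a positive proportion of the primes,
# over every finitely generated field

Let `M i` be finitely many pure motives over a finitely generated field `k` of characteristic zero
(objects of the category of André), of weight `w i` and dimension `n i`, `Γ` the absolute Galois group of
`k`, `ρ ℓ i` its action on the `ℓ`-adic realization of `M i`, and `𝔤 ℓ` the Lie algebra (over `ℚ_ℓ`) of the
motivic Galois group `G` of the sum of the `M i` over the algebraic closure of `k`.  The property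
`Motivic (ρ ℓ) (𝔤 ℓ)` (structure `IsMotivic`, from the library) states the properties which are used: `𝔤 ℓ`
is a Lie algebra, it respects the direct sum, it is reductive (trace form nondegenerate, completely
reducible), it consists of all endomorphisms which kill the tensors killed by `𝔤 ℓ`, and these tensors
are Tate tensors (fixed by a subgroup of finite index of `Γ`).  Let `r` be the rank of `G` (or any number
`≥` the ranks of all `𝔤 ℓ`).  Nothing is assumed on the type of `G`, on Hodge numbers or polarisations, and
NO semisimplicity is assumed.

An *element* `e` (structure `Element`) is a `γ` in `Γ`, for instance a Frobenius element, which acts, for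
all `ℓ` outside a finite set `e.bad`, on the realizations of the `M i` with characteristic polynomials `P i`
in `ℚ[T]` independent of `ℓ`; it has *maximal rank* if there are `r` multiplicatively independent numbers
among the roots of the `P i` (`IndependentRoots r e.P`).  Let `K = e.field` be the field generated by these
roots.  An automorphism `τ` of `K` is *elliptic* for `e` (`EllipticIn`) if the products
`x · τ x ⋯ τ^(m-1) x`, for some `m > 0` and all quotients `x` of two roots of the same `P i`, are roots of
unity: if `τ` has no fixed vector `≠ 0` in the group generated by these quotients, modulo torsion.  In other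
words: the Frobenius torus of `e` is anisotropic modulo its centre, over the field fixed by `τ`.  If `e` is
pure, the complex conjugation is elliptic.

Theorem.  (1) Let `e` be an element of maximal rank.  If `ℓ` is not in `e.bad`, and some automorphism `σ` of
the algebraic closure of `ℚ_ℓ` is elliptic for the eigenvalues of `γ` at `ℓ`, then the `ℓ`-adic realizations of
all `M i` are semisimple (for `Γ` and all its subgroups of finite index), and the Tate tensors are those
killed by `𝔤 ℓ` (the Mumford-Tate conjecture for motivated cycles at `ℓ`, `G_ℓ° = G°`) if and only if this is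
true for endomorphisms.  These primes `ℓ` have lower density at least the proportion of the elliptic
elements in the Galois group of `K` over `ℚ`.

(2) Suppose that at ONE prime `ℓ₀` there is ONE element of `Γ` (no Frobenius element) with `r`
multiplicatively independent eigenvalues.  Then there is a Frobenius element `e` of maximal rank, and the
proportion of (1) for `e` is at least `1 / (∑ n i)!`.  Here the Frobenius elements at places of degree one
which are not above `ℓ₀` (`PureElement`: rational characteristic polynomials independent of `ℓ`, pure of
weights `w i`, integral up to a Tate twist) have to be dense in `Γ` (`DensePure`; theorems of Deligne and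
Chebotarev).

(3) Let `𝒲` be a set of elements `e` of maximal rank, pure on each `M i`, and `E` a finite Galois extension
of `ℚ`, such that for every number field `M` the field of some `e` in `𝒲` meets `M` inside `E`
(`PureFamily`).  Then the conclusion holds for a set of primes of lower density at least `1 / [E : ℚ]`:
for `100` percent of the primes, if the fields of the elements of `𝒲` are independent (`E = ℚ`).

The hypothesis of (2) follows from the Mumford-Tate conjecture at the one prime `ℓ₀`, since then the
image of `Γ` contains an open subgroup of `G(ℚ_ℓ₀)`.  So the Mumford-Tate conjecture at one prime implies the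
conjecture of Grothendieck and Serre on the semisimplicity, and the equivalence of the Mumford-Tate
conjecture with the Tate conjecture for endomorphisms, at a positive proportion of the primes, over
every finitely generated field.

The proportion does not tend to zero quickly: if for example `G` is `GSp_2g` and the Galois group of `K`
induces the whole Weyl group on the characters of the Frobenius torus, it is the proportion of the
elements of the Weyl group without eigenvalue `1`, that is `(2 g)! / (2 ^ g g!) ^ 2`, about `1 / √(π g)`; the
class of the complex conjugation alone gives `1 / (2 ^ g g!)`.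

In comparison: if `k = ℚ`, or if the places above the residue characteristic of some Frobenius element of
maximal rank are independent, the library modules `MP_8f1292_ag.MaximalFrobeniusTorus` and
`MP_b8862a_ag.EndomorphismsSuffice` have the conclusion of (1) for all `ℓ`, by the `ℓ`-adic theorem of six
exponentials; this fails for other fields `k`, because of the Hecke characters of CM type.  Here there is
no condition on `k` and on the places.  The library module `MP_8f1292_ag.RegularFrobenius` and our module
`MP_c184fc_ag.StronglyRegularDensity` use the complex conjugation only, and need other conditions on a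
Frobenius element (a polarisation and simple eigenvalues; strong regularity), the latter with a weaker
conclusion.  The existence of `e` in (2) is the theorem of Serre on maximal Frobenius tori; its proof is
the one of the library (`R931.IR`).

The proof.  Let `L` be the Lie algebra of the endomorphisms which preserve all subspaces stable under a
subgroup of finite index and kill all Tate tensors, `L ⊆ 𝔤 ℓ`.  The determinant `d` of `γ` on `L` is in
`ℚ_ℓ`, and it is a product of quotients `x` of eigenvalues of `γ` on the same summand.  As `d` is fixed by
`σ`, `d ^ m` is the product of the numbers `x · σ x ⋯ σ^(m-1) x`, and so `d` is a root of unity.  Hence the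
Lie algebra of the torus of `γ`, which is a Cartan subalgebra of `𝔤 ℓ ⊗ ℂ` by the maximality of the rank,
acts on `L` with trace zero.  By the method of the library module `MaximalFrobeniusTorus` (`sl₂`-triples)
the trace form of `L` is nondegenerate, and the representation is semisimple.
-/

set_option autoImplicit false

namespace Pool.Agent.Results.MP_b4801b_ag.OneElementOfMaximalRank

open Module Pool.Agent.Y114.TF Pool.Agent.Y114.RM Pool.Agent.Y114.MU Pool.Agent.H204R3.GP
  Pool.Agent.H853.OS Pool.Agent.H853.EL

theorem result {Γ : Type} [Group Γ] [TopologicalSpace Γ] [IsTopologicalGroup Γ] [CompactSpace Γ]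
    {ι : Type} [Fintype ι] [DecidableEq ι] {n : ι → ℕ}
    -- the `ℓ`-adic realizations, and the Lie algebras of the motivic Galois group, for all `ℓ`
    (ρ : ∀ (ℓ : ℕ) [Fact ℓ.Prime], Reps Γ n ℓ) (hρ : ∀ (ℓ : ℕ) [Fact ℓ.Prime], Conts (ρ ℓ))
    (𝔤 : ∀ (ℓ : ℕ) [Fact ℓ.Prime], EndSpace n ℓ)
    (h𝔤 : ∀ (ℓ : ℕ) [Fact ℓ.Prime], Motivic (ρ ℓ) (𝔤 ℓ))
    -- the rank
    (r : ℕ) (hrank : ∀ (ℓ : ℕ) [Fact ℓ.Prime], HasRankLE (𝔤 ℓ) r) :
    -- (1) an element of maximal rank
    (∀ e : Element ρ, IndependentRoots r e.P →
      (∀ (ℓ : ℕ) [Fact ℓ.Prime], ℓ ∉ e.bad → (∃ σ : LocalAut ℓ, EllipticAt (ρ ℓ) e.γ σ) →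
        Good (ρ ℓ) (𝔤 ℓ)) ∧
      GoodForDensity ρ 𝔤 (ellipticProportion e)) ∧
    -- (2) an element with independent eigenvalues at one prime
    (∀ (w : ι → ℤ) (c : ℕ) (ℓ₀ : ℕ) [Fact ℓ₀.Prime], DensePure ρ w c ℓ₀ →
      (∃ γ, IndependentEigenvalues (ρ ℓ₀) (AlgebraicClosure ℚ_[ℓ₀]) γ r) →
      ∃ e : PureElement ρ w c, IndependentRoots r e.P ∧
        1 / ((∑ i, n i).factorial : ℝ) ≤ ellipticProportion e.toElement ∧
        GoodForDensity ρ 𝔤 (ellipticProportion e.toElement)) ∧
    -- (3) a family of pure elements of maximal rank
    (∀ (𝒲 : Set (Element ρ)) (E : IntermediateField ℚ ℂ), (∀ e ∈ 𝒲, IndependentRoots r e.P) →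
      PureFamily 𝒲 E → GoodForDensity ρ 𝔤 (1 / finrank ℚ E)) := by
  refine ⟨fun e he => ⟨fun ℓ _ hℓ hσ => ?_, density hρ h𝔤 r hrank e he⟩, ?_,
    fun 𝒲 E h𝒲 hE => density_core hρ h𝔤 r hrank 𝒲 h𝒲 E hE⟩
  · obtain ⟨σ, hσ⟩ := hσ
    exact good_elliptic (ρ ℓ) (hρ ℓ) (𝔤 ℓ) (h𝔤 ℓ) e.γ r
      (hasRank_of (Pool.Agent.H853.CC.ne_zero_of_char e.charpoly) (e.charpoly ℓ hℓ) he) (hrank ℓ)
      σ hσ
  · intro w c ℓ₀ _ hD hγ
    obtain ⟨γ, hγ⟩ := hγ
    obtain ⟨e, -, he⟩ := exists_maximal (hρ ℓ₀) hD γ r hγ
    exact ⟨e, he, proportion_ge e.toElement fun i => ⟨_, e.pure i⟩,
      density hρ h𝔤 r hrank e.toElement he⟩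

end Pool.Agent.Results.MP_b4801b_ag.OneElementOfMaximalRank
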