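import Pool.Agent.H853.CC.Dich
import Pool.Agent.H853.CC.Par

/-!
# If the Galois representation of a motive is not semisimple, the Galois group normalizes a proper
# parabolic subalgebra on whose nilradical all Frobenius elements have torsion determinants

Let `M i` be finitely many pure motives over a finitely generated field `k` of characteristic zero
(objects of the category of André, with `ρ i` the action of the Galois group `Γ` of `k` on the `ℓ`-adic
realization of `M i`), `V` the direct sum of the realizations, and `𝔤 ⊆ End V` the Lie algebra over `ℚ_ℓ`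
of the motivic Galois group of the direct sum over the algebraic closure.  The property `Motivic ρ 𝔤`
(structure `IsMotivic`, from the library) states what is used: `𝔤` is a Lie algebra, it respects the
direct sum, it is reductive, it consists of all endomorphisms which kill the tensors killed by `𝔤`, and
these tensors are Tate tensors.  A *specialization* is given by a homomorphism `s` from the Galois group of
a number field `F` to `Γ` (the restriction to a closed point of a model of `k`; the identity if `k` is a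
number field).  It is *good* if it has good reduction above at least THREE prime numbers (the set `T`),
unramified in `F` and different from `ℓ`: unramified, with rational and pure Frobenius polynomials.
Nothing else is assumed; there is no polarisation, and no condition on the type of the group, on the
Hodge numbers or on the rank of the Frobenius tori.

Theorem.  (1) Either `V` is semisimple (for all subgroups of finite index of `Γ`), or `Γ` normalizes a
proper parabolic subalgebra of `𝔤` defined over `ℚ_ℓ`: its nilradical `U ≠ 0` is stable under `Γ`, and is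
the radical of the trace form on the normalizer of `U` in `𝔤`.

(2) Let `L ⊆ 𝔤` be an arbitrary stable subspace, for instance `U`, or a term of its central series.  For
all `p` in `T`, the product over the places `v` of `F` above `p` of the determinants of Frobenius elements
at `v` on `L` is a root of unity; if the places above `p` are independent (for instance if there is only
one), each of these determinants is a root of unity.

(3) Hence `V` is semisimple if there are a good specialization, an independent prime `p` in `T` and a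
Frobenius element at a place above `p` whose determinant on the nilradicals of the proper parabolic
subalgebras of `𝔤` which it normalizes is not a root of unity.

The condition (3) holds if the Frobenius torus has maximal rank (the library module
`MP_b8862a_ag.EndomorphismsSuffice`); but here it is only necessary that the Frobenius torus is not in the
kernels of the characters `det U` of the parabolic subgroups which contain it, a condition on finitely
many characters of a maximal torus, which leaves Frobenius tori of all positive ranks.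

The proof.  Let `L₀` be the Lie algebra of the endomorphisms which kill all Tate tensors.  It contains
the replicas of its elements.  If the trace form is nondegenerate on `L₀`, then `V` is semisimple.  If it
is degenerate, its radical consists of nilpotent endomorphisms.  So there is a maximal stable Lie
subalgebra `U ≠ 0` of `𝔤` which consists of nilpotent endomorphisms; the normalizer `N` of `U` in `𝔤`
contains the replicas of its elements, and the radical of the trace form on `N` is a stable ideal which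
consists of nilpotent endomorphisms and contains `U` (theorem of Engel), so that it is `U`.  (2): the
transfer to `ℚ` of the determinant of `L` is, by the `ℓ`-adic theorem of six exponentials (in the
library), a power of the cyclotomic character up to torsion, and it has weight zero because the
elements of `𝔤` respect the direct sum.
-/

set_option autoImplicit false

namespace Pool.Agent.Results.MP_b4801b_ag.ParabolicDichotomy

open NumberField IsDedekindDomain Module Polynomial TensorProduct Pool.Agent.Y114.TF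
  Pool.Agent.Y114.GF Pool.Agent.Y114.MU Pool.Agent.Y114.RM Pool.Agent.H204R3.GP
  Pool.Agent.NH34.BD Pool.Agent.H853.SR Pool.Agent.H853.CC Pool.Agent.Y212.RM

section lie

variable {k : Type} [Field k] {V : Type} [AddCommGroup V] [Module k V]

/-- `X` is in the normalizer of `U` in `𝔤`: in `𝔤`, with `[X, U] ⊆ U`. -/
def InNormalizer (𝔤 U : Submodule k (End k V)) (X : End k V) : Prop :=
  X ∈ 𝔤 ∧ ∀ Y ∈ U, X * Y - Y * X ∈ U

/-- `X` is orthogonal to the normalizer of `U` in `𝔤` for the trace form. -/
def OrthogonalToNormalizer (𝔤 U : Submodule k (End k V)) (X : End k V) : Prop :=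
  ∀ Y, InNormalizer 𝔤 U Y → LinearMap.trace k V (X * Y) = 0

/-- `U` is a nonzero subspace of `𝔤`, and it consists of the elements of its normalizer in `𝔤` which
are orthogonal to the normalizer for the trace form.  (By the theorem of Borel and Tits, these are the
nilradicals of the proper parabolic subalgebras of the reductive Lie algebra `𝔤`.) -/
def IsParabolicRadical (𝔤 U : Submodule k (End k V)) : Prop :=
  U ≠ ⊥ ∧ ∀ X, X ∈ U ↔ InNormalizer 𝔤 U X ∧ OrthogonalToNormalizer 𝔤 U X

variable {Γ : Type} [Group Γ] (ρ : Representation k Γ V)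

/-- `L` is stable under the conjugation by `γ`. -/
def StableAt (γ : Γ) (L : Submodule k (End k V)) : Prop := ∀ X ∈ L, AdE (ρ γ) (ρ γ⁻¹) X ∈ L

/-- The determinant of the conjugation by `γ` on `L`. -/
noncomputable def detConj {γ : Γ} {L : Submodule k (End k V)} (hL : StableAt ρ γ L) : k :=
  detOn L (AdE (ρ γ) (ρ γ⁻¹)) hL

end lie

section rep

variable {Γ : Type} [Group Γ] {ι : Type} {n : ι → ℕ} {ℓ : ℕ} [Fact ℓ.Prime] (ρ : Reps Γ n ℓ)
  (𝔤 : EndSpace n ℓ)

/-- `L` is stable under the conjugation by `γ`. -/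
def StableFor (γ : Γ) (L : EndSpace n ℓ) : Prop := StableAt (sumRep ρ) γ L

/-- `L` is stable under the conjugations by all elements of `Γ`. -/
def Stable (L : EndSpace n ℓ) : Prop := ∀ γ, StableFor ρ γ L

/-- The determinant of the conjugation by `γ` on `L`. -/
noncomputable def detAt {γ : Γ} {L : EndSpace n ℓ} (hL : StableFor ρ γ L) : ℚ_[ℓ] :=
  detConj (sumRep ρ) hL

/-- `x` is a root of unity. -/
def Torsion {k : Type} [Field k] (x : k) : Prop := ∃ m : ℕ, 0 < m ∧ x ^ m = 1

/-- `U` is the nilradical of a proper parabolic subalgebra of `𝔤` (see `IsParabolicRadical`). -/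
def ParabolicRadical (U : EndSpace n ℓ) : Prop := IsParabolicRadical 𝔤 U

/-- If `γ` normalizes the nilradical `U` of a proper parabolic subalgebra of `𝔤`, the determinant of
`γ` on `U` is not a root of unity. -/
def Unbalanced (γ : Γ) : Prop :=
  ∀ U : EndSpace n ℓ, ParabolicRadical 𝔤 U → ∀ h : StableFor ρ γ U, ¬ Torsion (detAt ρ h)

end rep

section places

variable {F : Type} [Field F] [NumberField F]

/-- `σ` is an arithmetic Frobenius element at a place of the algebraic closure above `v`. -/
def IsFrobenius (v : HeightOneSpectrum (𝓞 F)) (σ : Gal(AlgebraicClosure F/F)) : Prop :=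
  ∃ Q, PrimeOver Q v ∧ IsFrobAt Q (q v) σ

/-- `σ v` is a Frobenius element at `v`, for all places `v` above `p`. -/
def AreFrobenius (p : ℕ) (σ : HeightOneSpectrum (𝓞 F) → Gal(AlgebraicClosure F/F)) : Prop :=
  ∀ v, Above v p → IsFrobenius v (σ v)

/-- The product of the determinants on `L` of Frobenius elements `σ v`, over all places above `p`. -/
noncomputable def detProduct {Γ : Type} [Group Γ] {ι : Type} {n : ι → ℕ} {ℓ : ℕ} [Fact ℓ.Prime]
    (ρ : Reps Γ n ℓ) (s : Gal(AlgebraicClosure F/F) →* Γ) {L : EndSpace n ℓ} (hL : Stable ρ L)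
    (p : ℕ) (σ : HeightOneSpectrum (𝓞 F) → Gal(AlgebraicClosure F/F)) : ℚ_[ℓ] :=
  ∏ᶠ (v : HeightOneSpectrum (𝓞 F)) (_ : Above v p), detAt ρ (hL (s (σ v)))

/-- The determinants of Frobenius elements above `p` on the stable subspaces of `𝔤`: their product over
the places above `p` is a root of unity, and they are roots of unity if the places above `p` are
independent. -/
def TorsionDeterminants {Γ : Type} [Group Γ] {ι : Type} {n : ι → ℕ} {ℓ : ℕ} [Fact ℓ.Prime]
    (ρ : Reps Γ n ℓ) (𝔤 : EndSpace n ℓ) (s : Gal(AlgebraicClosure F/F) →* Γ)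
    (P : HeightOneSpectrum (𝓞 F) → ι → ℚ[X]) (p : ℕ) : Prop :=
  ∀ (L : EndSpace n ℓ) (hL : Stable ρ L), Contained L 𝔤 → ∀ σ, AreFrobenius p σ →
    Torsion (detProduct ρ s hL p σ) ∧
    (IndependentPlaces P p → ∀ v, Above v p → Torsion (detAt ρ (hL (s (σ v)))))

/-- The places above `p` are independent, and some Frobenius element above `p` is unbalanced. -/
def UnbalancedFrobenius {Γ : Type} [Group Γ] {ι : Type} {n : ι → ℕ} {ℓ : ℕ} [Fact ℓ.Prime]
    (ρ : Reps Γ n ℓ) (𝔤 : EndSpace n ℓ) (s : Gal(AlgebraicClosure F/F) →* Γ)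
    (P : HeightOneSpectrum (𝓞 F) → ι → ℚ[X]) (p : ℕ) : Prop :=
  IndependentPlaces P p ∧ ∃ v σ, Above v p ∧ IsFrobenius v σ ∧ Unbalanced ρ 𝔤 (s σ)

/-- The specialization given by `s` has good reduction above all primes `p` in `T`, with the Frobenius
polynomials `P`, and `T` has at least three elements, different from `ℓ` and unramified in `F`. -/
structure GoodSpecialization {Γ : Type} [Group Γ] [TopologicalSpace Γ] {ι : Type} {n : ι → ℕ}
    {ℓ : ℕ} [Fact ℓ.Prime] (ρ : Reps Γ n ℓ) (s : Gal(AlgebraicClosure F/F) →* Γ) (w : ι → ℤ)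
    (P : HeightOneSpectrum (𝓞 F) → ι → ℚ[X]) (T : Set ℕ) : Prop where
  cont : Continuous s
  three : 3 ≤ T.encard
  primes : ∀ p ∈ T, p.Prime ∧ p ≠ ℓ ∧ UnramifiedIn F p
  good : ∀ p ∈ T, ∀ v, Above v p → ∀ i, GoodReduction (restrictTo ρ s) i (w i) v (P v i)

end places

section proofs

variable {Γ : Type} [Group Γ] [TopologicalSpace Γ] [IsTopologicalGroup Γ] [CompactSpace Γ]
    {ι : Type} [Fintype ι] [DecidableEq ι] {n : ι → ℕ} {ℓ : ℕ} [Fact ℓ.Prime]

theorem dich (ρ : Reps Γ n ℓ) (hρ : Conts ρ) (𝔤 : EndSpace n ℓ) (h𝔤 : Motivic ρ 𝔤)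
    (h𝔤' : Stable ρ 𝔤) : Semisimple ρ ∨ ∃ U, Stable ρ U ∧ Contained U 𝔤 ∧
      ParabolicRadical 𝔤 U := by
  have h4 : ∀ γ, ∀ X ∈ (show Submodule ℚ_[ℓ] (End ℚ_[ℓ] (∀ i, Fin (n i) → ℚ_[ℓ])) from 𝔤),
      sumRep ρ γ * X * sumRep ρ γ⁻¹ ∈
        (show Submodule ℚ_[ℓ] (End ℚ_[ℓ] (∀ i, Fin (n i) → ℚ_[ℓ])) from 𝔤) := by
    intro γ X hX
    rw [mul_assoc]
    exact h𝔤' γ X hX
  rcases dichotomy inputs inputs2 ρ hρ 𝔤 h𝔤 h4 with h1 | ⟨U, hU1, hU2, hU3, hU4⟩
  · exact Or.inl h1
  · refine Or.inr ⟨U, fun γ X hX => hU4 γ X hX, hU1, hU2, fun X => ?_⟩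
    constructor
    · intro hX
      have h3 : X ∈ radOf (norm 𝔤 U) := by rw [hU3]; exact hX
      exact h3
    · intro hX
      have h3 : X ∈ radOf (norm 𝔤 U) := hX
      rwa [hU3] at h3

theorem det_all {F : Type} [Field F] [NumberField F] (ρ : Reps Γ n ℓ) (hρ : Conts ρ)
    (𝔤 : EndSpace n ℓ) (h𝔤 : Motivic ρ 𝔤)
    {s : Gal(AlgebraicClosure F/F) →* Γ} {w : ι → ℤ} {P : HeightOneSpectrum (𝓞 F) → ι → ℚ[X]}
    {T : Set ℕ} (hs : GoodSpecialization ρ s w P T) {L : EndSpace n ℓ} (hL : Stable ρ L)
    (hLG : Contained L 𝔤) {p : ℕ} (hp : p ∈ T)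
    (σ : HeightOneSpectrum (𝓞 F) → Gal(AlgebraicClosure F/F))
    (hσ : AreFrobenius p σ) : Torsion (detProduct ρ s hL p σ) := by
  obtain ⟨m, hm, h1⟩ := det_prod (w := w) inputs inputs2 ρ hρ s hs.cont 𝔤 h𝔤 P T hs.three hs.primes
    (fun p hp v hv => goodPlace_of (restrictTo ρ s) (hs.good p hp v hv)) (L := L) hLG hL hp σ hσ
  refine ⟨m, hm, ?_⟩
  have h2 : detProduct ρ s hL p σ =
      ∏ᶠ (v : HeightOneSpectrum (𝓞 F)) (_ : Above v p), detOn L
        (AdE (sumRep ρ (s (σ v))) (sumRep ρ (s (σ v))⁻¹)) (hL (s (σ v))) :=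
    finprod_congr fun v => finprod_congr fun _ => rfl
  rw [h2]
  exact h1

theorem det_one {F : Type} [Field F] [NumberField F] (ρ : Reps Γ n ℓ) (hρ : Conts ρ)
    (𝔤 : EndSpace n ℓ) (h𝔤 : Motivic ρ 𝔤)
    {s : Gal(AlgebraicClosure F/F) →* Γ} {w : ι → ℤ} {P : HeightOneSpectrum (𝓞 F) → ι → ℚ[X]}
    {T : Set ℕ} (hs : GoodSpecialization ρ s w P T) {L : EndSpace n ℓ} (hL : Stable ρ L)
    (hLG : Contained L 𝔤) {p : ℕ} (hp : p ∈ T) (hind : IndependentPlaces P p)
    {v : HeightOneSpectrum (𝓞 F)} (hv : Above v p) {σ : Gal(AlgebraicClosure F/F)}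
    (hσ : IsFrobenius v σ) : Torsion (detAt ρ (hL (s σ))) := by
  obtain ⟨m, hm, h1⟩ := det_torsion (w := w) inputs inputs2 ρ hρ s hs.cont 𝔤 h𝔤 P T hs.three
    hs.primes (fun p hp v hv => goodPlace_of (restrictTo ρ s) (hs.good p hp v hv)) hp hind hv σ hσ (L := L) hLG
    hL
  obtain ⟨ψ, hψ, hψ'⟩ := inputs.cont ℓ ι n _ ρ hρ L hL
  refine ⟨m, hm, ?_⟩
  have h2 : detAt ρ (hL (s σ)) = (ψ (s σ) : ℚ_[ℓ]) := (hψ' (s σ)).symm
  have h3 : (ψ (s σ)⁻¹ : ℚ_[ℓ]) ^ m = 1 := (congrArg (fun x => x ^ m) (hψ' (s σ)⁻¹)).trans h1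
  rw [h2]
  rw [map_inv, Units.val_inv_eq_inv_val, inv_pow, inv_eq_one] at h3
  exact h3

end proofs

theorem result {Γ : Type} [Group Γ] [TopologicalSpace Γ] [IsTopologicalGroup Γ] [CompactSpace Γ]
    {ι : Type} [Fintype ι] [DecidableEq ι] {n : ι → ℕ} {ℓ : ℕ} [Fact ℓ.Prime]
    -- the `ℓ`-adic realizations, and the Lie algebra of the motivic Galois group
    (ρ : Reps Γ n ℓ) (hρ : Conts ρ) (𝔤 : EndSpace n ℓ) (h𝔤 : Motivic ρ 𝔤) (h𝔤' : Stable ρ 𝔤) :
    -- (1) semisimple, or a proper parabolic subalgebra is stable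
    (Semisimple ρ ∨ ∃ U, Stable ρ U ∧ Contained U 𝔤 ∧ ParabolicRadical 𝔤 U) ∧
    -- specializations which are good above three primes: (2) the determinants of Frobenius elements on
    -- all stable subspaces of `𝔤`, and (3) a criterion of semisimplicity
    (∀ {F : Type} [Field F] [NumberField F] (s : Gal(AlgebraicClosure F/F) →* Γ) (w : ι → ℤ)
      (P : HeightOneSpectrum (𝓞 F) → ι → ℚ[X]) (T : Set ℕ), GoodSpecialization ρ s w P T →
      ∀ p ∈ T, TorsionDeterminants ρ 𝔤 s P p ∧ (UnbalancedFrobenius ρ 𝔤 s P p → Semisimple ρ)) := by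
  refine ⟨dich ρ hρ 𝔤 h𝔤 h𝔤', fun s w P T hs p hp => ⟨?_, ?_⟩⟩
  · intro L hL hLG σ hσ
    exact ⟨det_all ρ hρ 𝔤 h𝔤 hs hL hLG hp σ hσ, fun hind v hv =>
      det_one ρ hρ 𝔤 h𝔤 hs hL hLG hp hind hv (hσ v hv)⟩
  · rintro ⟨hind, v, σ, hv, hσ, hun⟩
    rcases dich ρ hρ 𝔤 h𝔤 h𝔤' with h1 | ⟨U, hU, hUG, hUP⟩
    · exact h1
    · exact absurd (det_one ρ hρ 𝔤 h𝔤 hs hU hUG hp hind hv hσ) (hun U hUP _)

end Pool.Agent.Results.MP_b4801b_ag.ParabolicDichotomy
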