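import Pool.Agent.H367.OS.OFac
import Pool.Graph.R_pool_sql_team_seeded_2aa45f1a.Q193.LT.Gal

/-!
# Semisimplicity of the Galois action in one degree and single pieces of one sequence of cubics

A relation `r` of size `m` is one of the equations `x_i x_j = x_l`, `x_i + x_j = x_l`, `x_i = 1` with
`i, j, l < m`; the relations are numbered, the number of `r` is `ν(r)` (`relNum`). Let `G_m` be the
following polynomial with integral coefficients (`univG ℤ m`). There are variables `x_i` and `z_ij` for
`i, j < m`, a variable `c_r` for every relation `r`, and variables `y_{r,l}` for all relations `r` and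
`l < (m + 1) 2 ^ ν(r)`. The equations (`eqnG`) are

  `z_ij - x_i x_j`,  `c_r ^ 2 - c_r`,  `c_r ρ_r`,  `(1 - c_r) y_{r,l}`,

where `ρ_r` is the linear polynomial `z_ij - x_l`, `x_i + x_j - x_l` or `x_i - 1` of the relation.
`G_m` is the sum of the equations multiplied by further variables `t_e`, one for each equation. It has
degree three. Let `C_m` be the affine cubic hypersurface `G_m = 1` (`cubG R m` over the ring `R`); it is
smooth over the integers.

Let `ℓ` be a prime number, and let `M` be the category of motives over `ℚ` for absolute Hodge cycles,
a semisimple abelian category with Tate twists `N ↦ N(a)`, and `ω` its `ℓ`-adic realization; the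
values of `ω` are representations of the Galois group of `ℚ`, that is modules over its group algebra.
For a separated scheme `X` of finite type over `ℚ` let `D.G w j X = Gr^W_w H^j_c(X)` be the part of
weight `w` of the cohomology with compact supports, a motive over `ℚ`; for smooth projective `Y` it is
`h^j(Y)` if `j = w`, and zero otherwise. `Semisimple ω N` says that the representation `ω(N)` is
semisimple.

For a finitely generated field `K` of characteristic zero and a smooth projective scheme `X` over `K`
let `E.H i K X` be `H^i_ℓ(X)`, a representation of the Galois group of `K`. `Semi E i K X` says that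
it is semisimple; `AllFG (Semi E i)` is question Q1 in degree `i` (for `ℓ`). It follows from the case
of `ℚ` (hypothesis `FromQfg`): by Serre there is a specialization of `X` over a number field `k` such
that the images of the two Galois groups in `GL(H^i_ℓ)` are equal, and a smooth projective scheme over
`k` is a smooth projective scheme over `ℚ`, whose cohomology is the induced representation.

**Theorem.** Let `E_m` be the number of the equations, and for `N ∈ ℕ` let `e = (m + 1) N + E_m - 1`
(`esh m N`).

(1) For every degree `i` question Q1 (at `ℓ`) has a positive answer for `H^i_ℓ(X)`, for all smooth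
projective varieties `X` over all finitely generated fields of characteristic zero, if and only if for
infinitely many `m` the `ℓ`-adic representations of the single motives
`Gr^W_{i+2e} H^{i+2e+1}_c(C_m)(e)` of weight `i` are semisimple, for all `N`. The first open case is
`i = 2`.

(2) The hypersurfaces `C_m` decide the statement for the pieces of the cohomology (`DecidesPieces`).
For every affine scheme `Spec B` of finite type over `ℚ` and all large `m` there is an `N` such that
for `0 ≤ w ≤ 2 m + 1` and all `j` the statement for `Gr^W_w H^j_c(Spec B)` is equivalent to the one
for `Gr^W_{w+2e} H^{j+2e+1}_c(C_m)`. For every smooth projective `Y` over `ℚ`, every `d` and all large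
`m` there is an `e'` such that for all `i ≤ d` the statement for `h^i(Y)` is equivalent to the one for
`Gr^W_{i+2e'} H^{i+2e'+1}_c(C_m)`. The statements for the pieces of one `C_m` imply those for all
pieces of a given separated scheme `X` of finite type. (In all these statements there are the same
Tate twists on both sides, up to the shift by `e`.)

(3) For `i = 1` the statement is known (Faltings), so the `ℓ`-adic representations of the motives
`Gr^W_{2e+1} H^{2e+2}_c(C_m)(e)` are semisimple, for infinitely many `m` and all `N`.

(4) `G_m` has integral coefficients and degree at most three, and `C_m` is smooth over all rings.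

The hypotheses on the motives are standard (`IsMot`): exact sequences, affine bundles, disjoint unions,
the cohomology of affine spaces, the weights of `H^j_c(X)` are between `0` and `2 dim X`, monomorphisms
split, `Gr^W_w H^j_c(X)` is a direct factor of `h^w(Y)` for some smooth projective `Y` (it is a
subquotient, by the weight spectral sequence), and every smooth projective scheme has an affine bundle
whose total space is affine (Jouanolou).

Idea of the proof. The projection of `C_m` to the affine space with the coordinates `x, z, c, y` is an
affine bundle over the complement of the zero set `W_m` of the equations. The scheme `W_m` is the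
disjoint union, over all sets `s` of relations (`c_r = 1` for `r ∈ s` and `c_r = 0` for the others), of
the products `X_s × 𝔸 ^ ((m + 1) N(s))`, where `X_s` is the affine scheme defined by the relations in
`s` and `N(s) = ∑_{r ∈ s} 2 ^ ν(r)`. The numbers `N(s)` are different, and the weights of the
cohomology of `X_s` are between `0` and `2 m`. So the part of weight `w + 2 (m + 1) N(s)`,
`0 ≤ w ≤ 2 m + 1`, of the cohomology of `W_m` is the twist of the part of weight `w` of the cohomology of
`X_s`, and it is different from the weight of the cohomology of the affine space. Every affine scheme of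
finite type over a prime field is an `X_s`, for all large `m`. The pieces of the cohomology of an
arbitrary scheme are direct factors of those of a disjoint union of affine schemes.

The universal system of relations is the one of helper854 (`Pool.Agent.H854.SQ`).
-/

set_option autoImplicit false

open CategoryTheory CategoryTheory.Limits AlgebraicGeometry Pool.Agent.Y116.UV Pool.Agent.Z125.UN
  Pool.Agent.Q193.LT Pool.Agent.H854.SQ Pool.Agent.H367.OS

universe w v u



namespace Pool.Agent.Results.MP_b4801b_ag.PiecesOfOneSequence

/-- The cohomology groups `H^i_ℓ(X)` of the smooth projective schemes `X` over the fields `K` of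
characteristic zero, with the action of the Galois group of `K`. -/
structure EllAdic (ℓ : ℕ) [Fact ℓ.Prime] where
  /-- the representation `H^i_ℓ(X)` -/
  H : ∀ (_ : ℕ) (K : Type) [Field K] [CharZero K], Sch K → ModuleCat.{w} (GalAlg K ℓ)

/-- The representation `H^i_ℓ(X)` of the Galois group of `K` is semisimple. -/
def Semi {ℓ : ℕ} [Fact ℓ.Prime] (E : EllAdic.{w} ℓ) (i : ℕ) (K : Type) [Field K] [CharZero K]
    (X : Sch K) : Prop :=
  IsSemisimpleModule (GalAlg K ℓ) (E.H i K X)

/-- **Semisimplicity of the Galois action and single pieces of one sequence of cubic hypersurfaces over
the integers.** See the explanations above. -/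
theorem result {ℓ : ℕ} [Fact ℓ.Prime] {M : Type u} [Category.{v} M] [Abelian M] {D : Pieces ℚ M}
    (h : IsMot D) {ω : M ⥤ ModuleCat.{w} (GalAlg ℚ ℓ)} {E : EllAdic.{w} ℓ}
    (describes : ∀ i : ℕ, FromQfg (Semi E i) fun Y => Semisimple ω (D.G i i Y))
    (faltings : ∀ Y : Sch ℚ, SmoothProj Y → Semisimple ω (D.G 1 1 Y)) :
    (∀ i : ℕ, AllFG (Semi E i) ↔ ∃ᶠ m in Filter.atTop, ∀ N : ℕ,
      Semisimple ω ((D.tw (esh m N)).obj
        (D.G (i + 2 * esh m N) (i + 2 * esh m N + 1) (cubG ℚ m)))) ∧
    DecidesPieces D (Semisimple ω) ∧
    (∃ᶠ m in Filter.atTop, ∀ N : ℕ, Semisimple ω ((D.tw (esh m N)).obj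
      (D.G (1 + 2 * esh m N) (1 + 2 * esh m N + 1) (cubG ℚ m)))) ∧
    ∀ m : ℕ, (univG ℤ m).totalDegree ≤ 3 ∧
      ∀ (R : Type) [CommRing R], MvPolynomial.map (Int.castRingHom R) (univG ℤ m) = univG R m ∧
        Smooth (cubG R m).hom := by
  have hf : FactorClosed (Semisimple ω) := semisimple_closed ω
  have hd := decides_pieces isPrimeField_rat h hf
  have h0 := hd.degree h.pieces hf.isoInv
  refine ⟨fun i => (describes i).all.trans (h0 i), hd, ?_, cubG_facts⟩
  have h1 := (h0 1).mp (by simpa using faltings)
  simpa using h1

end Pool.Agent.Results.MP_b4801b_ag.PiecesOfOneSequence
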